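import Pool.Agent.H504R2.Place

set_option autoImplicit false

open Finset Pool.Agent.H504R2 IsDedekindDomain NumberField
open scoped WithZero

namespace Pool.Agent.TH78.TP

/-- the place of a prime ideal above `p` -/
theorem place_core (K : Type) [Field K] [NumberField K] (P : Ideal (𝓞 K)) (hPr : P.IsPrime)
    (p : ℕ) (hp : p.Prime) (hpP : (p : 𝓞 K) ∈ P) :
    ∃ v : Valuation K ℤᵐ⁰, IsPlace v p (Ideal.absNorm P) ∧ (∃ f, Ideal.absNorm P = p ^ f) ∧
      ∀ e : ℕ, (p : 𝓞 K) ∉ P ^ (e + 1) → WithZero.exp (-(e : ℤ)) ≤ v (p : K) := by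
  classical
  have hp0 : (p : 𝓞 K) ≠ 0 := by exact_mod_cast hp.ne_zero
  have hPbot : P ≠ ⊥ := by
    rintro rfl
    exact hp0 (by simpa using hpP)
  have hPmax : P.IsMaximal := hPr.isMaximal hPbot
  let w : HeightOneSpectrum (𝓞 K) := ⟨P, hPr, hPbot⟩
  have hPle : Ideal.span {(p : 𝓞 K)} ≤ P := by
    rw [Ideal.span_singleton_le_iff_mem]; exact hpP
  have hnorm : Ideal.absNorm P ∣ p ^ Module.finrank ℚ K := by
    have h1 := Ideal.absNorm_dvd_absNorm_of_le hPle
    rw [Ideal.absNorm_span_singleton] at h1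
    have h2 : (Algebra.norm ℤ ((p : ℕ) : 𝓞 K)) = (p : ℤ) ^ Module.finrank ℤ (𝓞 K) := by
      have := Algebra.norm_algebraMap (R := ℤ) (S := 𝓞 K) (p : ℤ)
      simpa using this
    rwa [h2, Int.natAbs_pow, Int.natAbs_natCast, RingOfIntegers.rank] at h1
  obtain ⟨f, hf, hfe⟩ := (Nat.dvd_prime_pow hp).1 hnorm
  have hf1 : 1 ≤ f := by
    rcases Nat.eq_zero_or_pos f with h0 | h0
    · rw [h0, pow_zero, Ideal.absNorm_eq_one_iff] at hfe
      exact absurd hfe hPmax.ne_top
    · exact h0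
  letI : Field (𝓞 K ⧸ P) := Ideal.Quotient.field P
  have hcard : Nat.card (𝓞 K ⧸ P) = p ^ f := by
    rw [← hfe]; rfl
  have hfin : Finite (𝓞 K ⧸ P) := Nat.finite_of_card_ne_zero (by rw [hcard]; exact (pow_pos hp.pos f).ne')
  letI := Fintype.ofFinite (𝓞 K ⧸ P)
  have hfc : Fintype.card (𝓞 K ⧸ P) = p ^ f := by rw [← Nat.card_eq_fintype_card]; exact hcard
  have hmem : ∀ r : 𝓞 K, w.valuation K (algebraMap (𝓞 K) K r) < 1 ↔ r ∈ P := fun r =>
    w.valuation_lt_one_iff_mem r
  have happ : ∀ x : K, w.valuation K x ≤ 1 → ∃ a : 𝓞 K, w.valuation K (algebraMap (𝓞 K) K a - x) < 1 := by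
    intro x hx
    obtain ⟨a, ha⟩ := w.exists_valuation_sub_lt_of_integer hx 1
    exact ⟨a, by simpa using ha⟩
  have hev : ∀ e : ℕ, (p : 𝓞 K) ∉ P ^ (e + 1) → WithZero.exp (-(e : ℤ)) ≤ w.valuation K (p : K) := by
    intro e he
    by_contra hcon
    rw [not_le] at hcon
    apply he
    have h1 : w.intValuation (p : 𝓞 K) ≤ WithZero.exp (-((e + 1 : ℕ) : ℤ)) := by
      have h2 : w.valuation K (p : K) = w.intValuation (p : 𝓞 K) := by
        have := w.valuation_of_algebraMap (K := K) (p : 𝓞 K)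
        simpa using this
      rw [← h2]
      by_cases h0 : w.valuation K (p : K) = 0
      · rw [h0]; exact zero_le
      · rw [← WithZero.exp_log h0] at hcon ⊢
        rw [WithZero.exp_lt_exp] at hcon
        rw [WithZero.exp_le_exp]
        push_cast
        omega
    exact (w.intValuation_le_pow_iff_mem _ _).1 h1
  rw [hfe]
  refine ⟨w.valuation K, ⟨?_, ?_, ?_, ?_⟩, ⟨f, rfl⟩, hev⟩
  · have := (hmem p).2 hpP
    simpa using this
  · intro n
    have := w.valuation_le_one (K := K) (n : 𝓞 K)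
    simpa using this
  · intro u hu
    obtain ⟨a, ha⟩ := happ u hu.le
    have hau : w.valuation K (algebraMap (𝓞 K) K a) = 1 := by
      have h1 : algebraMap (𝓞 K) K a = (algebraMap (𝓞 K) K a - u) + u := by ring
      rw [h1, Valuation.map_add_eq_of_lt_right _ (by rw [hu]; exact ha), hu]
    have haP : a ∉ P := by
      intro h; rw [← hmem] at h; rw [hau] at h; exact lt_irrefl _ h
    have ha0 : (Ideal.Quotient.mk P a) ≠ 0 := by
      rwa [Ne, Ideal.Quotient.eq_zero_iff_mem]
    have h1 : (Ideal.Quotient.mk P a) ^ (p ^ f - 1) = 1 := by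
      rw [← hfc]; exact FiniteField.pow_card_sub_one_eq_one _ ha0
    have h2 : a ^ (p ^ f - 1) - 1 ∈ P := by
      rw [← Ideal.Quotient.eq_zero_iff_mem, map_sub, map_pow, h1, map_one, sub_self]
    have h3 := (hmem _).2 h2
    rw [map_sub, map_pow, map_one] at h3
    have h4 : w.valuation K (u ^ (p ^ f - 1) - (algebraMap (𝓞 K) K a) ^ (p ^ f - 1)) < 1 := by
      rw [← Commute.mul_geom_sum₂ (Commute.all _ _), map_mul]
      have h5 : w.valuation K (∑ i ∈ Finset.range (p ^ f - 1), u ^ i * (algebraMap (𝓞 K) K a) ^ (p ^ f - 1 - 1 - i)) ≤ 1 := by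
        apply Valuation.map_sum_le
        intro i _
        rw [map_mul, map_pow, map_pow, hu, hau, one_pow, one_pow, one_mul]
      have h6 : w.valuation K (u - algebraMap (𝓞 K) K a) < 1 := by
        rw [Valuation.map_sub_swap]; exact ha
      calc _ ≤ w.valuation K (u - algebraMap (𝓞 K) K a) * 1 := by gcongr
        _ < 1 := by rwa [mul_one]
    have h7 : u ^ (p ^ f - 1) - 1 = (u ^ (p ^ f - 1) - (algebraMap (𝓞 K) K a) ^ (p ^ f - 1)) + ((algebraMap (𝓞 K) K a) ^ (p ^ f - 1) - 1) := by ring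
    rw [h7]
    exact Valuation.map_add_lt _ h4 h3
  · intro S hS
    rcases S.eq_empty_or_nonempty with rfl | ⟨x0, hx0⟩
    · simp
    have hint : ∀ x ∈ S, w.valuation K (x - x0) ≤ 1 := by
      intro x hx
      by_cases h : x = x0
      · simp [h]
      · exact (hS x hx x0 hx0 h).le
    have hch : ∀ x : K, ∃ a : 𝓞 K, x ∈ S → w.valuation K (algebraMap (𝓞 K) K a - (x - x0)) < 1 := by
      intro x
      by_cases hx : x ∈ S
      · obtain ⟨a, ha⟩ := happ _ (hint x hx)
        exact ⟨a, fun _ => ha⟩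
      · exact ⟨0, fun h => absurd h hx⟩
    choose g hg using hch
    have hinj : Set.InjOn (fun x => Ideal.Quotient.mk P (g x)) S := by
      intro x hx y hy hxy
      by_contra hne
      have h1 := hS x hx y hy hne
      have h2 : g x - g y ∈ P := Ideal.Quotient.eq.1 hxy
      have h3 := (hmem _).2 h2
      rw [map_sub] at h3
      have h4 : x - y = (algebraMap (𝓞 K) K (g x) - algebraMap (𝓞 K) K (g y))
          - (algebraMap (𝓞 K) K (g x) - (x - x0)) + (algebraMap (𝓞 K) K (g y) - (y - x0)) := by ring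
      have h5 : w.valuation K (x - y) < 1 := by
        rw [h4]
        exact Valuation.map_add_lt _ (Valuation.map_sub_lt _ h3 (hg x hx)) (hg y hy)
      rw [h1] at h5
      exact lt_irrefl _ h5
    have := Finset.card_le_card_of_injOn (t := Finset.univ) (fun x => Ideal.Quotient.mk P (g x)) (fun _ _ => Finset.mem_univ _) hinj
    rwa [Finset.card_univ, hfc] at this


/-- a nonzero prime ideal contains a prime number -/
lemma exists_prime_mem (K : Type) [Field K] [NumberField K] (P : Ideal (𝓞 K)) (hPr : P.IsPrime)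
    (hPbot : P ≠ ⊥) : ∃ p : ℕ, p.Prime ∧ (p : 𝓞 K) ∈ P := by
  have key : ∀ n : ℕ, n ≠ 0 → (n : 𝓞 K) ∈ P → ∃ p : ℕ, p.Prime ∧ (p : 𝓞 K) ∈ P := by
    intro n
    induction n using Nat.strong_induction_on with
    | _ n ih =>
      intro hn hnP
      have hn1 : n ≠ 1 := by
        rintro rfl
        rw [Nat.cast_one] at hnP
        exact hPr.ne_top ((Ideal.eq_top_iff_one _).2 hnP)
      have hp := Nat.minFac_prime hn1
      obtain ⟨c, hc⟩ := Nat.minFac_dvd n
      have h1 : ((n.minFac : ℕ) : 𝓞 K) * (c : 𝓞 K) ∈ P := by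
        rw [← Nat.cast_mul, ← hc]; exact hnP
      rcases hPr.mem_or_mem h1 with h | h
      · exact ⟨_, hp, h⟩
      · have hc0 : c ≠ 0 := by rintro rfl; rw [mul_zero] at hc; exact hn hc
        have hlt : c < n := by
          conv_rhs => rw [hc]
          have := hp.two_le
          nlinarith [Nat.pos_of_ne_zero hc0]
        exact ih c hlt hc0 h
  refine key (Ideal.absNorm P) ?_ (Ideal.absNorm_mem P)
  rw [Ne, Ideal.absNorm_eq_zero_iff]
  exact hPbot

end Pool.Agent.TH78.TP
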