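import Pool.Agent.TH78.TP.Period
import Pool.Agent.H504E.SkewCount

set_option autoImplicit false
set_option linter.unusedSectionVars false
set_option linter.unusedVariables false

open Finset Pool.Agent.H504R2 Pool.Agent.H504D Pool.Agent.H504E
open scoped WithZero

namespace Pool.Agent.TH78.TP

variable {K : Type} [Field K] {N : ℕ}

namespace Skew

variable {σ τ d : ℕ} {F : (Fin (N + 2) → K) → Fin (N + 2) → K} (h : Skew σ τ d F)

include h

theorem count (hd2 : 2 ≤ d) {M : ℕ} (hM : 0 < M) (i : ℕ) (hiN : i + 1 < N + 2) :
    ∀ T : Finset (Fin (N + 2) → K), (∀ x ∈ T, ¬ ZP (i + 1) x) →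
      (∀ x ∈ T, ∀ y ∈ T, PR (i + 1) x y → x = y) → (∀ x ∈ T, PR (i + 1) (F^[M] x) x) →
      T.card ≤ cnt (d ^ M) i := by
  classical
  have he : 2 ≤ d ^ M := by
    calc 2 ≤ d := hd2
      _ = d ^ 1 := (pow_one d).symm
      _ ≤ d ^ M := Nat.pow_le_pow_right (by omega) hM
  induction i with
  | zero =>
    intro T hT0 hTp hTf
    obtain ⟨G, hG, hGx⟩ := h.base
    have hG' := hG.iter M hM
    have hne : ∀ x ∈ T, two x ≠ 0 := fun x hx h => hT0 x hx (two_eq_zero_iff.1 h)
    have hinj : Set.InjOn (two : (Fin (N + 2) → K) → Fin 2 → K) T := by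
      intro x hx y hy hxy
      apply hTp x hx y hy
      rw [zero_add, PR_one_iff (hne x hx) (hne y hy), hxy]
      exact br_self _
    rw [← card_image_of_injOn hinj]
    apply hG'.count he
    · intro z hz
      obtain ⟨x, hx, rfl⟩ := mem_image.1 hz
      exact hne x hx
    · intro z hz w hw c hzw
      obtain ⟨x, hx, rfl⟩ := mem_image.1 hz
      obtain ⟨y, hy, rfl⟩ := mem_image.1 hw
      congr 1
      apply hTp x hx y hy
      rw [zero_add, PR_one_iff (hne x hx) (hne y hy), br_eq_zero_iff (hne x hx) (hne y hy)]
      refine ⟨c, ?_, hzw⟩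
      rintro rfl
      apply hne x hx
      rw [hzw, zero_smul]
    · intro z hz
      obtain ⟨x, hx, rfl⟩ := mem_image.1 hz
      obtain ⟨s, hs, hsx⟩ := hTf x hx
      refine ⟨s, ?_⟩
      rw [← h.iter_two G hGx]
      ext j
      fin_cases j
      · exact hsx 0 (by simp)
      · exact hsx 1 (by simp)
  | succ i ih =>
    intro T hT0 hTp hTf
    set I : Fin (N + 2) := ⟨i + 2, hiN⟩ with hI
    have hI2 : 2 ≤ (I : ℕ) := by simp [hI]
    have hsplit : (T.filter fun x => ZP (i + 1) x).card + (T.filter fun x => ¬ ZP (i + 1) x).card = T.card :=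
      card_filter_add_card_filter_not _
    have hzero : (T.filter fun x => ZP (i + 1) x).card ≤ 1 := by
      rw [card_le_one]
      intro x hx y hy
      rw [mem_filter] at hx hy
      apply hTp x hx.1 y hy.1
      have hxI : ∀ x ∈ T, ZP (i + 1) x → x I ≠ 0 := by
        intro x hx hz hxI
        apply hT0 x hx
        intro j hj
        by_cases hjI : j = I
        · rw [hjI, hxI]
        · apply hz
          have : (j : ℕ) ≠ i + 2 := fun h => hjI (Fin.ext h)
          omega
      have h1 := hxI x hx.1 hx.2
      have h2 := hxI y hy.1 hy.2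
      refine ⟨x I / y I, div_ne_zero h1 h2, fun j hj => ?_⟩
      by_cases hjI : j = I
      · rw [hjI]; field_simp
      · have : (j : ℕ) ≠ i + 2 := fun h => hjI (Fin.ext h)
        rw [hx.2 j (by omega), hy.2 j (by omega), mul_zero]
    have hmain : (T.filter fun x => ¬ ZP (i + 1) x).card ≤ cnt (d ^ M) i * d ^ M := by
      set T' := T.filter fun x => ¬ ZP (i + 1) x with hT'
      have hT'T : T' ⊆ T := filter_subset _ _
      apply card_classes (PR (i + 1)) (fun x => PR.refl _ x) (fun x y hxy => hxy.symm) T'
      · intro R hR hRp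
        apply ih (by omega) R
        · intro x hx
          exact (mem_filter.1 (hR hx)).2
        · exact hRp
        · intro x hx
          exact (hTf x (hT'T (hR hx))).mono (by omega)
      · intro r hr
        obtain ⟨j0, hj0, hrj0⟩ : ∃ j : Fin (N + 2), (j : ℕ) ≤ i + 1 ∧ r j ≠ 0 := by
          have := (mem_filter.1 hr).2
          unfold ZP at this
          push Not at this
          exact this
        have hj0I : j0 ≠ I := by
          rintro rfl
          simp [hI] at hj0
        obtain ⟨P, hPd, hP, -⟩ := h.iter_fib M hI2 r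
        set l : K := F^[M] r j0 / r j0 with hl
        set Q : Polynomial K := P - Polynomial.C l * Polynomial.X with hQ
        have hQd : Q.natDegree = d ^ M := by
          rw [hQ, Polynomial.natDegree_sub_eq_left_of_natDegree_lt, hPd]
          rw [hPd]
          refine lt_of_le_of_lt (Polynomial.natDegree_C_mul_le _ _) ?_
          rw [Polynomial.natDegree_X]
          omega
        have hQ0 : Q ≠ 0 := by
          rintro h0
          rw [h0, Polynomial.natDegree_zero] at hQd
          omega
        have hz : ∀ y ∈ T'.filter (PR (i + 1) r), PR (i + 2) (Function.update r I (r j0 / y j0 * y I)) y := by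
          intro y hy
          obtain ⟨-, s, hs, hsy⟩ := mem_filter.1 hy
          have h1 := hsy j0 hj0
          have hyj0 : y j0 ≠ 0 := by
            intro h0
            rw [h0, mul_zero] at h1
            exact hrj0 h1
          have hs' : r j0 / y j0 = s := by rw [h1]; field_simp
          refine ⟨s, hs, fun j hj => ?_⟩
          by_cases hjI : j = I
          · subst hjI; rw [Function.update_self, hs']
          · rw [Function.update_of_ne hjI]
            apply hsy
            have : (j : ℕ) ≠ i + 2 := fun h => hjI (Fin.ext h)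
            omega
        have hinj : Set.InjOn (fun y : Fin (N + 2) → K => r j0 / y j0 * y I) (T'.filter (PR (i + 1) r)) := by
          intro y hy y' hy' hyy
          have h1 := hz y hy
          have h2 := hz y' hy'
          simp only at hyy
          rw [hyy] at h1
          apply hTp y (hT'T (mem_filter.1 hy).1) y' (hT'T (mem_filter.1 hy').1)
          exact h1.symm.trans h2
        rw [← card_image_of_injOn hinj]
        calc _ ≤ Q.roots.toFinset.card := by
              apply card_le_card
              intro w hw
              obtain ⟨y, hy, rfl⟩ := mem_image.1 hw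
              rw [Multiset.mem_toFinset, Polynomial.mem_roots hQ0, Polynomial.IsRoot.def, hQ]
              simp only [Polynomial.eval_sub, Polynomial.eval_mul, Polynomial.eval_C, Polynomial.eval_X]
              have h1 := hz y hy
              have h2 := (h.iter_PR M (by omega) h1).trans
                ((hTf y (hT'T (mem_filter.1 hy).1)).trans h1.symm)
              obtain ⟨s, hs, hsz⟩ := h2
              have h3 := hsz j0 (by omega)
              rw [Function.update_of_ne hj0I] at h3
              have h4 : F^[M] (Function.update r I (r j0 / y j0 * y I)) j0 = F^[M] r j0 := by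
                apply h.iter_pre M (i := i + 1) (by omega) _ j0 hj0
                intro j hj
                apply Function.update_of_ne
                rintro rfl
                simp [hI] at hj
              rw [h4] at h3
              have hsl : s = l := by rw [hl, h3]; field_simp
              have h5 := hsz I le_rfl
              rw [hP, Function.update_self, hsl] at h5
              rw [h5, sub_self]
          _ ≤ Q.roots.card := Multiset.toFinset_card_le _
          _ ≤ Q.natDegree := Polynomial.card_roots' _
          _ = d ^ M := hQd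
    show T.card ≤ cnt (d ^ M) i * d ^ M + 1
    omega

end Skew

/-- the main theorem in abstract form -/
theorem skew_bound {σ τ : ℕ} (d : ℕ) (hd : 2 ≤ d) {v1 v2 : Valuation K ℤᵐ⁰} {p1 q1 p2 q2 : ℕ}
    (g1 : GoodPlace σ τ v1 p1 q1) (g2 : GoodPlace σ τ v2 p2 q2) (hp12 : p1 ≠ p2)
    (F : (Fin (N + 2) → K) → Fin (N + 2) → K) (h : Skew σ τ d F) (S : Finset (Fin (N + 2) → K))
    (hS0 : ∀ x ∈ S, x ≠ 0)
    (hSp : ∀ x ∈ S, ∀ y ∈ S, ∀ c : K, x = c • y → x = y)
    (hpre : ∀ x ∈ S, ∃ m n : ℕ, m < n ∧ ∃ c : K, c ≠ 0 ∧ F^[n] x = c • F^[m] x) :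
    S.card ≤ cnt (d ^ (B1 d q1 q2 * B2 q1 q2 ^ N).factorial) N := by
  classical
  set N0 := B1 d q1 q2 * B2 q1 q2 ^ N with hN0
  have hall : ∀ {x y : Fin (N + 2) → K}, PR (N + 1) x y → ∃ c : K, c ≠ 0 ∧ x = c • y := by
    rintro x y ⟨s, hs, hxy⟩
    exact ⟨s, hs, funext fun j => hxy j (by have := j.2; omega)⟩
  apply h.count hd (Nat.factorial_pos N0) N (by omega) S
  · intro x hx hz
    apply hS0 x hx
    funext j
    exact hz j (by have := j.2; omega)
  · intro x hx y hy hxy
    obtain ⟨c, -, hc⟩ := hall hxy
    exact hSp x hx y hy c hc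
  · intro x hx
    obtain ⟨a, b, hab, c, hc, hcx⟩ := hpre x hx
    obtain ⟨n, hn0, hle, hnx⟩ := h.period (by omega) g1 g2 hp12 N (by omega) x
      ⟨a, b - a, by omega, ⟨c, hc, fun j _ => by
        rw [show a + (b - a) = b by omega, hcx]; rfl⟩⟩
    obtain ⟨s, hs⟩ := Nat.dvd_factorial hn0 hle
    rw [hs]
    have key : ∀ s, PR (N + 1) (F^[n * s] x) x := by
      intro s
      induction s with
      | zero => simpa using PR.refl _ _
      | succ s ih =>
        rw [show n * (s + 1) = n + n * s by ring, Function.iterate_add_apply]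
        exact (h.iter_PR n (by omega) ih).trans hnx
    exact key s

end Pool.Agent.TH78.TP
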