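import Pool.Agent.TH78.TP.Skew

set_option autoImplicit false
set_option linter.unusedSectionVars false
set_option linter.unusedVariables false

open Finset Pool.Agent.H504R2 Pool.Agent.H504D Pool.Agent.H504E
open scoped WithZero

namespace Pool.Agent.TH78.TP

variable {K : Type} [Field K] {N : ℕ}

/-- bound for the base -/
def B1 (d q1 q2 : ℕ) : ℕ := ((q1 + 1) * q1 ^ (2 * d + 1)) * ((q2 + 1) * q2 ^ (2 * d + 1))

/-- bound for the fibres -/
def B2 (q1 q2 : ℕ) : ℕ := q1 ^ 6 * q2 ^ 6

namespace Skew

variable {σ τ d : ℕ} {F : (Fin (N + 2) → K) → Fin (N + 2) → K} (h : Skew σ τ d F)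

include h

theorem period (hd : d ≠ 0) {v1 v2 : Valuation K ℤᵐ⁰} {p1 q1 p2 q2 : ℕ} (g1 : GoodPlace σ τ v1 p1 q1)
    (g2 : GoodPlace σ τ v2 p2 q2) (hne : p1 ≠ p2) (i : ℕ) (hiN : i + 1 < N + 2) :
    ∀ x : Fin (N + 2) → K, (∃ a n, 0 < n ∧ PR (i + 1) (F^[a + n] x) (F^[a] x)) →
      ∃ n, 0 < n ∧ n ≤ B1 d q1 q2 * B2 q1 q2 ^ i ∧
        PR (i + 1) (F^[n] x) x := by
  have hq1 : 1 ≤ q1 := by
    obtain ⟨f, hf⟩ := g1.hq
    rw [hf]; exact Nat.one_le_pow _ _ g1.hp.pos
  have hq2 : 1 ≤ q2 := by
    obtain ⟨f, hf⟩ := g2.hq
    rw [hf]; exact Nat.one_le_pow _ _ g2.hp.pos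
  have hB1 : 1 ≤ B1 d q1 q2 := by
    unfold B1
    have h1 := Nat.one_le_pow (2 * d + 1) _ hq1
    have h2 := Nat.one_le_pow (2 * d + 1) _ hq2
    exact Nat.mul_pos (Nat.mul_pos (by omega) h1) (Nat.mul_pos (by omega) h2)
  have hB2 : 1 ≤ B2 q1 q2 := by
    unfold B2
    exact Nat.mul_pos (Nat.one_le_pow _ _ hq1) (Nat.one_le_pow _ _ hq2)
  induction i with
  | zero =>
    intro x hpre
    rw [pow_zero, mul_one, zero_add]
    obtain ⟨G, hG, hGx⟩ := h.base
    by_cases hx : two x = 0
    · refine ⟨1, one_pos, hB1, ?_⟩
      have hz := two_eq_zero_iff.1 hx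
      exact (h.map_zp hd le_rfl hz).PR hz
    · have hGit : ∀ n, G^[n] (two x) ≠ 0 := by
        intro n
        induction n with
        | zero => exact hx
        | succ n ih => rw [Function.iterate_succ_apply']; exact hG.ne ih
      obtain ⟨a, n, hn, hpr⟩ := hpre
      have h2 : br (G^[a + n] (two x)) (G^[a] (two x)) = 0 := by
        rw [zero_add] at hpr
        rw [← h.iter_two G hGx, ← h.iter_two G hGx, ← PR_one_iff]
        · exact hpr
        · rw [h.iter_two G hGx]; exact hGit _
        · rw [h.iter_two G hGx]; exact hGit _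
      obtain ⟨m, hm0, hm, hmx⟩ := hG.period g1 g2 hne hx ⟨a, n, hn, h2⟩
      refine ⟨m, hm0, hm, ?_⟩
      rw [PR_one_iff]
      · rw [h.iter_two G hGx]; exact hmx
      · rw [h.iter_two G hGx]; exact hGit _
      · exact hx
  | succ i ih =>
    intro x hpre
    obtain ⟨a, n, hn, hpr⟩ := hpre
    obtain ⟨n', hn0, hn'B, hn'⟩ := ih (by omega) x ⟨a, n, hn, hpr.mono (by omega)⟩
    set I : Fin (N + 2) := ⟨i + 2, hiN⟩ with hI
    have hI2 : 2 ≤ (I : ℕ) := by simp [hI]
    by_cases hz : ZP (i + 1) x
    · refine ⟨1, one_pos, Nat.mul_pos hB1 (pow_pos hB2 _), ?_⟩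
      exact h.fix_top hd g1 (by omega) hiN hz
    · obtain ⟨j0, hj0, hxj0⟩ : ∃ j : Fin (N + 2), (j : ℕ) ≤ i + 1 ∧ x j ≠ 0 := by
        unfold ZP at hz
        push Not at hz
        exact hz
      obtain ⟨l, hl, hlx⟩ := hn'
      obtain ⟨P, hPd, hP, hPt⟩ := h.iter_fib n' hI2 x
      obtain ⟨T1'⟩ := hPt g1
      obtain ⟨T2'⟩ := hPt g2
      have T1 := T1'.comp (Tame.affine l⁻¹ 0 (inv_ne_zero hl))
      have T2 := T2'.comp (Tame.affine l⁻¹ 0 (inv_ne_zero hl))
      set ψ : K → K := fun u => l⁻¹ * P.eval u + 0 with hψ
      -- the return map on the fibre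
      have hstep : ∀ w, PR (i + 2) (F^[n'] (Function.update x I w)) (Function.update x I (ψ w)) := by
        intro w
        refine ⟨l, hl, fun j hj => ?_⟩
        by_cases hjI : j = I
        · subst hjI
          rw [hP, Function.update_self]
          simp only [hψ, add_zero]
          rw [← mul_assoc, mul_inv_cancel₀ hl, one_mul]
        · rw [Function.update_of_ne hjI]
          have hj' : (j : ℕ) ≤ i + 1 := by
            have : (j : ℕ) ≠ i + 2 := fun h => hjI (Fin.ext h)
            omega
          rw [← hlx j hj']
          apply h.iter_pre n' (i := i + 1) (by omega) _ j hj'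
          intro j2 hj2
          apply Function.update_of_ne
          rintro rfl
          simp [hI] at hj2
      have hiter : ∀ s w, PR (i + 2) (F^[n' * s] (Function.update x I w)) (Function.update x I (ψ^[s] w)) := by
        intro s w
        induction s with
        | zero => simpa using PR.refl _ _
        | succ s ihs =>
          rw [show n' * (s + 1) = n' + n' * s by ring, Function.iterate_add_apply,
            Function.iterate_succ_apply']
          exact (h.iter_PR n' (by omega) ihs).trans (hstep _)
      have hup : Function.update x I (x I) = x := Function.update_eq_self _ _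
      have huniq : ∀ w w', PR (i + 2) (Function.update x I w) (Function.update x I w') → w = w' := by
        intro w w' hw
        obtain ⟨s, hs, hw⟩ := hw
        have hne' : j0 ≠ I := by
          rintro rfl
          simp [hI] at hj0
        have h1 := hw j0 (by omega)
        rw [Function.update_of_ne hne', Function.update_of_ne hne'] at h1
        have hs1 : s = 1 := by
          have : (s - 1) * x j0 = 0 := by rw [sub_mul, one_mul, ← h1, sub_self]
          rcases mul_eq_zero.1 this with h | h
          · exact sub_eq_zero.1 h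
          · exact absurd h hxj0
        have h2 := hw I le_rfl
        rw [Function.update_self, Function.update_self, hs1, one_mul] at h2
        exact h2
      -- preperiodicity of the fibre coordinate
      have hshift : ∀ b, PR (i + 2) (F^[a + b + n] x) (F^[a + b] x) := by
        intro b
        have h1 := h.iter_PR b (by omega) hpr
        rw [← Function.iterate_add_apply, ← Function.iterate_add_apply] at h1
        rw [show a + b + n = b + (a + n) by ring, show a + b = b + a by ring]
        exact h1
      have hshift2 : ∀ b c, PR (i + 2) (F^[a + b + n * c] x) (F^[a + b] x) := by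
        intro b c
        induction c with
        | zero => simpa using PR.refl _ _
        | succ c ihc =>
          have h1 := hshift (b + n * c)
          have e1 : a + (b + n * c) + n = a + b + n * (c + 1) := by ring
          have e2 : a + (b + n * c) = a + b + n * c := by ring
          rw [e1, e2] at h1
          exact h1.trans ihc
      have hψper : ψ^[a + n] (x I) = ψ^[a] (x I) := by
        apply huniq
        have h1 := hiter (a + n) (x I)
        have h2 := hiter a (x I)
        rw [hup] at h1 h2
        have h3 := hshift2 (n' * a - a) n'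
        have hle : a ≤ n' * a := Nat.le_mul_of_pos_left _ hn0
        have e1 : a + (n' * a - a) = n' * a := by omega
        rw [e1] at h3
        have e2 : n' * a + n * n' = n' * (a + n) := by ring
        rw [e2] at h3
        exact h1.symm.trans (h3.trans h2)
      have hinj : Function.Injective ψ := by
        intro w w' hw
        by_contra hne
        exact T1.map_ne hne hw
      have hper2 : ψ^[n] (x I) = x I := by
        rw [Function.iterate_add_apply] at hψper
        exact (hinj.iterate a) hψper
      obtain ⟨m, hm0, hmB, hm⟩ := tame_period g1.hv g2.hv g1.hp g2.hp hne T1 T2 hn hper2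
      refine ⟨n' * m, Nat.mul_pos hn0 hm0, ?_, ?_⟩
      · rw [pow_succ, ← mul_assoc]
        exact Nat.mul_le_mul hn'B hmB
      · have h1 := hiter m (x I)
        rw [hup, hm, hup] at h1
        exact h1

end Skew

end Pool.Agent.TH78.TP
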