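import Pool.Agent.TH78.TP.BChain
import Pool.Agent.H504E.Skew

set_option autoImplicit false
set_option linter.unusedSectionVars false
set_option linter.unusedVariables false

open Finset Pool.Agent.H504R2 Pool.Agent.H504D Pool.Agent.H504E
open scoped WithZero

namespace Pool.Agent.TH78.TP

variable {K : Type} [Field K] {N : ℕ}

/-- `EPoly σ τ d F`: the polynomial `F` in one variable, of degree `d`, is a composition of affine
polynomials `a X + b`, of powers `X ^ m` with `m` prime to `σ`, and of Dickson polynomials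
`D_m(X, a)` with `m` prime to `τ`. -/
inductive EPoly {K : Type} [Field K] (σ τ : ℕ) : ℕ → Polynomial K → Prop
  | affine (a b : K) (ha : a ≠ 0) : EPoly σ τ 1 (Polynomial.C a * Polynomial.X + Polynomial.C b)
  | power (m : ℕ) (hm : 1 ≤ m) (h : Nat.Coprime m σ) : EPoly σ τ m (Polynomial.X ^ m)
  | dickson (m : ℕ) (a : K) (hm : 1 ≤ m) (h : Nat.Coprime m τ) :
      EPoly σ τ m (Polynomial.dickson 1 a m)
  | comp (d e : ℕ) (F G : Polynomial K) (hF : EPoly σ τ d F) (hG : EPoly σ τ e G) :
      EPoly σ τ (d * e) (F.comp G)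

lemma EPoly.natDegree {σ τ d : ℕ} {F : Polynomial K} (h : EPoly σ τ d F) : F.natDegree = d := by
  induction h with
  | affine a b ha => exact Polynomial.natDegree_linear ha
  | power m hm h => exact Polynomial.natDegree_X_pow m
  | dickson m a hm h =>
    obtain ⟨m', rfl⟩ : ∃ m', m = m' + 1 := ⟨m - 1, by omega⟩
    exact Polynomial.natDegree_eq_of_degree_eq_some (dickson_degree_aux a m').1
  | comp d e F G hF hG ihF ihG => rw [Polynomial.natDegree_comp, ihF, ihG]

lemma EPoly.tame {σ τ d : ℕ} {v : Valuation K ℤᵐ⁰} {p q : ℕ} (g : GoodPlace σ τ v p q) {F : Polynomial K}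
    (h : EPoly σ τ d F) : Nonempty (Tame v (fun x => F.eval x)) := by
  induction h with
  | affine a b ha =>
    refine ⟨?_⟩
    have : (fun x => (Polynomial.C a * Polynomial.X + Polynomial.C b).eval x) = fun x => a * x + b := by
      funext x; simp
    rw [this]
    exact Tame.affine a b ha
  | power m hm h =>
    have hA : Adm p q m (0 : K) := g.adm hm (Or.inl ⟨rfl, h⟩)
    refine ⟨?_⟩
    have : (fun x => (Polynomial.X ^ m : Polynomial K).eval x) = fun x => dk 0 x m := by
      funext x
      obtain ⟨m', rfl⟩ : ∃ m', m = m' + 1 := ⟨m - 1, by omega⟩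
      rw [dk_zero]; simp
    rw [this]
    exact Tame.dickson g.hv g.hp g.hq hA
  | dickson m a hm h =>
    have hA : Adm p q m a := g.adm hm (Or.inr h)
    refine ⟨?_⟩
    have : (fun x => (Polynomial.dickson 1 a m : Polynomial K).eval x) = fun x => dk a x m := by
      funext x
      rw [dk_eq_dickson]
    rw [this]
    exact Tame.dickson g.hv g.hp g.hq hA
  | comp d e F G hF hG ihF ihG =>
    obtain ⟨T1⟩ := ihF
    obtain ⟨T2⟩ := ihG
    have : (fun x => (F.comp G).eval x) = fun x => F.eval (G.eval x) := by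
      funext x; rw [Polynomial.eval_comp]
    rw [this]
    exact ⟨T2.comp T1⟩

/-- a skew product over an exceptional map of the line with exceptional fibres -/
structure Skew (σ τ d : ℕ) (F : (Fin (N + 2) → K) → Fin (N + 2) → K) : Prop where
  smul : ∀ (s : K) (x : Fin (N + 2) → K), F (s • x) = s ^ d • F x
  pre : ∀ i : ℕ, 1 ≤ i → ∀ x y : Fin (N + 2) → K, (∀ j : Fin (N + 2), (j : ℕ) ≤ i → x j = y j) →
    ∀ j : Fin (N + 2), (j : ℕ) ≤ i → F x j = F y j
  base : ∃ G, BChain σ τ d G ∧ ∀ x, two (F x) = G (two x)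
  fib : ∀ i : Fin (N + 2), 2 ≤ (i : ℕ) → ∀ x, ∃ P : Polynomial K, EPoly σ τ d P ∧
    ∀ u, F (Function.update x i u) i = P.eval u

namespace Skew

variable {σ τ d : ℕ} {F : (Fin (N + 2) → K) → Fin (N + 2) → K} (h : Skew σ τ d F)

include h

lemma iter_smul (n : ℕ) (s : K) (x : Fin (N + 2) → K) : F^[n] (s • x) = s ^ (d ^ n) • F^[n] x := by
  induction n with
  | zero => simp
  | succ n ih =>
    rw [Function.iterate_succ_apply', Function.iterate_succ_apply', ih, h.smul, ← pow_mul, ← pow_succ]

lemma iter_pre (n : ℕ) {i : ℕ} (hi : 1 ≤ i) {x y : Fin (N + 2) → K}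
    (hxy : ∀ j : Fin (N + 2), (j : ℕ) ≤ i → x j = y j) :
    ∀ j : Fin (N + 2), (j : ℕ) ≤ i → F^[n] x j = F^[n] y j := by
  induction n with
  | zero => exact hxy
  | succ n ih =>
    rw [Function.iterate_succ_apply', Function.iterate_succ_apply']
    exact h.pre i hi _ _ ih

lemma map_PR {i : ℕ} (hi : 1 ≤ i) {x y : Fin (N + 2) → K} (hxy : PR i x y) : PR i (F x) (F y) := by
  obtain ⟨s, hs, hxy⟩ := hxy
  refine ⟨s ^ d, pow_ne_zero _ hs, fun j hj => ?_⟩
  have h1 := h.pre i hi x (s • y) (fun j hj => by rw [hxy j hj]; rfl) j hj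
  rw [h1, h.smul]; rfl

lemma iter_PR (n : ℕ) {i : ℕ} (hi : 1 ≤ i) {x y : Fin (N + 2) → K} (hxy : PR i x y) :
    PR i (F^[n] x) (F^[n] y) := by
  induction n with
  | zero => exact hxy
  | succ n ih =>
    rw [Function.iterate_succ_apply', Function.iterate_succ_apply']
    exact h.map_PR hi ih

lemma map_zp (hd : d ≠ 0) {i : ℕ} (hi : 1 ≤ i) {x : Fin (N + 2) → K} (hx : ZP i x) : ZP i (F x) := by
  intro j hj
  have h1 := h.pre i hi x ((0 : K) • x) (fun j hj => by rw [hx j hj]; simp) j hj
  rw [h1, h.smul, zero_pow hd, zero_smul]; rfl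

lemma iter_two (G : (Fin 2 → K) → Fin 2 → K) (hG : ∀ x, two (F x) = G (two x)) (n : ℕ) (x : Fin (N + 2) → K) :
    two (F^[n] x) = G^[n] (two x) := by
  induction n with
  | zero => rfl
  | succ n ih => rw [Function.iterate_succ_apply', Function.iterate_succ_apply', hG, ih]

/-- fibre polynomials of iterates -/
lemma iter_fib (n : ℕ) {i : Fin (N + 2)} (hi : 2 ≤ (i : ℕ)) (x : Fin (N + 2) → K) :
    ∃ P : Polynomial K, P.natDegree = d ^ n ∧ (∀ u, F^[n] (Function.update x i u) i = P.eval u) ∧
      ∀ {v : Valuation K ℤᵐ⁰} {p q : ℕ} (_ : GoodPlace σ τ v p q), Nonempty (Tame v (fun u => P.eval u)) := by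
  induction n with
  | zero =>
    refine ⟨Polynomial.X, by simp, fun u => by simp, ?_⟩
    intro v p q _
    have : (fun u : K => (Polynomial.X : Polynomial K).eval u) = fun u => (1 : K) * u + 0 := by
      funext u; simp
    rw [this]
    exact ⟨Tame.affine 1 0 one_ne_zero⟩
  | succ n ih =>
    obtain ⟨Q, hQd, hQ, hQt⟩ := ih
    obtain ⟨P, hP, hPe⟩ := h.fib i hi (F^[n] x)
    refine ⟨P.comp Q, ?_, ?_, ?_⟩
    · rw [Polynomial.natDegree_comp, hQd, EPoly.natDegree hP, pow_succ, mul_comm]
    · intro u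
      rw [Polynomial.eval_comp, ← hQ, ← hPe, Function.iterate_succ_apply']
      apply h.pre i (by omega) _ _ _ i le_rfl
      intro j hj
      by_cases hji : j = i
      · subst hji; rw [Function.update_self]
      · rw [Function.update_of_ne hji]
        have hji' : (j : ℕ) ≤ (i : ℕ) - 1 := by
          have : (j : ℕ) ≠ i := fun h => hji (Fin.ext h)
          omega
        apply h.iter_pre n (i := (i : ℕ) - 1) (by omega) _ j hji'
        intro l hl
        apply Function.update_of_ne
        rintro rfl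
        omega
    · intro v p q g
      obtain ⟨T1⟩ := hQt g
      obtain ⟨T2⟩ := EPoly.tame g hP
      have : (fun u : K => (P.comp Q).eval u) = fun u => P.eval (Q.eval u) := by
        funext u; rw [Polynomial.eval_comp]
      rw [this]
      exact ⟨T1.comp T2⟩

/-- a point with all smaller coordinates zero is fixed on the next prefix -/
lemma fix_top (hd : d ≠ 0) {v : Valuation K ℤᵐ⁰} {p q : ℕ} (g : GoodPlace σ τ v p q) {i : ℕ} (hi : 1 ≤ i)
    (hiN : i + 1 < N + 2) {x : Fin (N + 2) → K} (h0 : ZP i x) : PR (i + 1) (F x) x := by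
  set I : Fin (N + 2) := ⟨i + 1, hiN⟩ with hI
  have hI2 : 2 ≤ (I : ℕ) := by simp [hI]; omega
  by_cases h1 : x I = 0
  · have hz : ZP (i + 1) x := by
      intro j hj
      rcases Nat.lt_or_ge (j : ℕ) (i + 1) with h | h
      · exact h0 j (by omega)
      · have hjI : j = I := Fin.ext (by simp [hI]; omega)
        rw [hjI, h1]
    exact (h.map_zp hd (by omega) hz).PR hz
  · have hFI : F x I ≠ 0 := by
      obtain ⟨P, hP, hPe⟩ := h.fib I hI2 x
      obtain ⟨T⟩ := EPoly.tame g hP
      have h2 := T.map_ne h1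
      have h3 : F x I = P.eval (x I) := by rw [← hPe, Function.update_eq_self]
      have h4 : P.eval 0 = 0 := by
        rw [← hPe]
        have hz : ZP (i + 1) (Function.update x I 0) := by
          intro j hj
          by_cases hjI : j = I
          · rw [hjI, Function.update_self]
          · rw [Function.update_of_ne hjI]
            apply h0
            have : (j : ℕ) ≠ i + 1 := fun h => hjI (Fin.ext h)
            omega
        exact h.map_zp hd (by omega) hz I le_rfl
      rw [h3]
      intro h5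
      apply h2
      show P.eval (x I) = P.eval 0
      rw [h5, h4]
    refine ⟨F x I / x I, div_ne_zero hFI h1, fun j hj => ?_⟩
    rcases Nat.lt_or_ge (j : ℕ) (i + 1) with h' | h'
    · rw [h0 j (by omega), mul_zero]
      exact h.map_zp hd hi h0 j (by omega)
    · have hjI : j = I := Fin.ext (by simp [hI]; omega)
      rw [hjI]
      field_simp

end Skew


end Pool.Agent.TH78.TP
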